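import Pool.Agent.Q107.OD.Double

/-!
# Basic tools for `q`-series with denominators over the integers
-/

set_option autoImplicit false

namespace Pool.Agent.Q107.TO

open Finset PowerSeries Filter Topology
open scoped PowerSeries.WithPiTopology
open Pool.Agent.Q107.OD

/-- the inverse of a series with constant term `1` -/
noncomputable def iv (P : ℤ⟦X⟧) : ℤ⟦X⟧ := invOfUnit P 1

theorem mul_iv {P : ℤ⟦X⟧} (h : constantCoeff P = 1) : P * iv P = 1 :=
  mul_invOfUnit P 1 (by simpa using h)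

theorem iv_unique {P Q : ℤ⟦X⟧} (h : constantCoeff P = 1) (h2 : P * Q = 1) : Q = iv P := by
  calc Q = (P * iv P) * Q := by rw [mul_iv h, one_mul]
    _ = (P * Q) * iv P := by ring
    _ = iv P := by rw [h2, one_mul]

theorem cc_pow {n : ℕ} (h : n ≠ 0) : constantCoeff (X ^ n : ℤ⟦X⟧) = 0 := by
  rw [map_pow, constantCoeff_X, zero_pow h]

theorem cc_add {n : ℕ} (h : n ≠ 0) : constantCoeff (1 + X ^ n : ℤ⟦X⟧) = 1 := by
  rw [map_add, map_one, cc_pow h, add_zero]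

theorem cc_sub {n : ℕ} (h : n ≠ 0) : constantCoeff (1 - X ^ n : ℤ⟦X⟧) = 1 := by
  rw [map_sub, map_one, cc_pow h, sub_zero]

theorem cc_prod {ι : Type*} (s : Finset ι) (f : ι → ℤ⟦X⟧) (h : ∀ i ∈ s, constantCoeff (f i) = 1) :
    constantCoeff (∏ i ∈ s, f i) = 1 := by
  rw [map_prod]
  exact Finset.prod_eq_one h

theorem iv_mul {P Q : ℤ⟦X⟧} (hP : constantCoeff P = 1) (hQ : constantCoeff Q = 1) :
    iv (P * Q) = iv P * iv Q := by
  symm
  refine iv_unique (by rw [map_mul, hP, hQ, one_mul]) ?_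
  calc P * Q * (iv P * iv Q) = (P * iv P) * (Q * iv Q) := by ring
    _ = 1 := by rw [mul_iv hP, mul_iv hQ, one_mul]

theorem iv_one : iv 1 = 1 := (iv_unique (by simp) (by simp)).symm

theorem cancel {P a b : ℤ⟦X⟧} (h : constantCoeff P = 1) (h2 : P * a = P * b) : a = b := by
  calc a = (P * iv P) * a := by rw [mul_iv h, one_mul]
    _ = iv P * (P * a) := by ring
    _ = iv P * (P * b) := by rw [h2]
    _ = (P * iv P) * b := by ring
    _ = b := by rw [mul_iv h, one_mul]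

theorem summable_dvd {f : ℕ → ℤ⟦X⟧} (h : ∀ n, (X : ℤ⟦X⟧) ^ n ∣ f n) : Summable f := by
  rw [WithPiTopology.summable_iff_summable_coeff]
  intro d
  refine summable_of_hasFiniteSupport ((Set.finite_Iic d).subset ?_)
  intro i hi
  rw [Set.mem_Iic]
  by_contra hlt
  push Not at hlt
  exact hi (X_pow_dvd_iff.1 (h i) d hlt)

theorem dvd_of_hasSum {f : ℕ → ℤ⟦X⟧} {a : ℤ⟦X⟧} (hf : HasSum f a) {N : ℕ}
    (h : ∀ n, (X : ℤ⟦X⟧) ^ N ∣ f n) : (X : ℤ⟦X⟧) ^ N ∣ a := by
  rw [X_pow_dvd_iff]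
  intro m hm
  have h1 := (WithPiTopology.hasSum_iff_hasSum_coeff ℤ).1 hf m
  have h2 : (fun i => coeff m (f i)) = fun _ => (0 : ℤ) := funext fun i => X_pow_dvd_iff.1 (h i) m hm
  rw [h2] at h1
  exact h1.unique hasSum_zero

theorem tendsto_of_dvd' {f : ℕ → ℤ⟦X⟧} {a : ℤ⟦X⟧} (h : ∀ n, (X : ℤ⟦X⟧) ^ n ∣ f n - a) :
    Tendsto f atTop (𝓝 a) := by
  rw [WithPiTopology.tendsto_iff_coeff_tendsto]
  intro d
  refine tendsto_nhds_of_eventually_eq ?_
  filter_upwards [eventually_ge_atTop (d + 1)] with n hn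
  have := X_pow_dvd_iff.1 (h n) d (by omega)
  rw [map_sub, sub_eq_zero] at this
  exact this

/-- telescoping sums -/
theorem hasSum_tel {v : ℕ → ℤ⟦X⟧} (h : ∀ n, (X : ℤ⟦X⟧) ^ n ∣ v n) :
    HasSum (fun n => v n - v (n + 1)) (v 0) := by
  have h1 := (summable_dvd h).hasSum
  have h2 : HasSum (fun n => v (n + 1)) ((∑' n, v n) - v 0) := by
    have := (hasSum_nat_add_iff' 1).2 h1
    simpa using this
  have h3 := h1.sub h2
  rwa [sub_sub_cancel] at h3

end Pool.Agent.Q107.TO
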