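import Pool.Agent.Q107.TO.Basic

/-!
# The three-term relation
-/

set_option autoImplicit false

namespace Pool.Agent.Q107.TO

open Finset PowerSeries Filter Topology
open scoped PowerSeries.WithPiTopology
open Pool.Agent.Q107.OD

/-- denominators `∏_{j ≤ n} (1 - q^{2k+1+2j})` -/
noncomputable def dT (k n : ℕ) : ℤ⟦X⟧ := ∏ j ∈ range (n + 1), (1 - X ^ (2 * k + 1 + 2 * j))

/-- numerators `∏_{j < 2n} (1 + q^{2k+1+j})` -/
noncomputable def nT (k n : ℕ) : ℤ⟦X⟧ := ∏ j ∈ range (2 * n), (1 + X ^ (2 * k + 1 + j))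

/-- terms of the first series -/
noncomputable def tT (k n : ℕ) : ℤ⟦X⟧ := X ^ (2 * n) * nT k n * iv (dT k n)

theorem cc_dT (k n : ℕ) : constantCoeff (dT k n) = 1 :=
  cc_prod _ _ fun j _ => cc_sub (by omega)

theorem dT_zero (k : ℕ) : dT k 0 = 1 - X ^ (2 * k + 1) := by
  unfold dT; simp

theorem dT_succ (k n : ℕ) : dT k (n + 1) = (1 - X ^ (2 * k + 1)) * dT (k + 1) n := by
  unfold dT
  rw [prod_range_succ', mul_comm]
  congr 1
  refine prod_congr rfl fun j _ => ?_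
  congr 2
  ring

theorem nT_succ (k n : ℕ) : nT k (n + 1) =
    (1 + X ^ (2 * k + 1)) * (1 + X ^ (2 * k + 2)) * nT (k + 1) n := by
  unfold nT
  rw [show 2 * (n + 1) = 2 * n + 1 + 1 by ring, prod_range_succ', prod_range_succ', mul_assoc,
    mul_comm]
  have : ∏ j ∈ range (2 * n), (1 + X ^ (2 * k + 1 + (j + 1 + 1)) : ℤ⟦X⟧) =
      ∏ j ∈ range (2 * n), (1 + X ^ (2 * (k + 1) + 1 + j)) := by
    refine prod_congr rfl fun j _ => ?_
    congr 2
    ring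
  rw [this]
  simp only [zero_add, add_zero]
  ring

theorem tT_dvd (k n : ℕ) : (X : ℤ⟦X⟧) ^ n ∣ tT k n := by
  unfold tT
  have : (X : ℤ⟦X⟧) ^ n ∣ X ^ (2 * n) := pow_dvd_pow _ (by omega)
  exact (this.mul_right _).mul_right _

theorem tT_zero (k : ℕ) : (1 - X ^ (2 * k + 1)) * tT k 0 = 1 := by
  unfold tT nT
  rw [dT_zero]
  have := mul_iv (P := 1 - X ^ (2 * k + 1)) (cc_sub (by omega))
  simp only [mul_zero, pow_zero, range_zero, prod_empty, one_mul]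
  exact this

theorem tT_succ (k n : ℕ) : (1 - X ^ (2 * k + 1)) * tT k (n + 1) =
    X ^ 2 * (1 + X ^ (2 * k + 1)) * (1 + X ^ (2 * k + 2)) * tT (k + 1) n := by
  unfold tT
  have c1 : constantCoeff (1 - X ^ (2 * k + 1) : ℤ⟦X⟧) = 1 := cc_sub (by omega)
  rw [dT_succ, nT_succ, iv_mul c1 (cc_dT _ _)]
  have h := mul_iv c1
  rw [show 2 * (n + 1) = 2 + 2 * n by ring, pow_add X 2 (2 * n)]
  generalize iv (1 - X ^ (2 * k + 1)) = w at h ⊢
  linear_combination (X ^ 2 * X ^ (2 * n) * (1 + X ^ (2 * k + 1)) * (1 + X ^ (2 * k + 2)) *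
    nT (k + 1) n * iv (dT (k + 1) n)) * h

/-- the first series -/
noncomputable def TT (k : ℕ) : ℤ⟦X⟧ := ∑' n, tT k n

theorem hasSum_TT (k : ℕ) : HasSum (tT k) (TT k) := (summable_dvd (tT_dvd k)).hasSum

theorem TT_rec (k : ℕ) : (1 - X ^ (2 * k + 1)) * TT k =
    1 + X ^ 2 * (1 + X ^ (2 * k + 1)) * (1 + X ^ (2 * k + 2)) * TT (k + 1) := by
  have h1 := (hasSum_TT k).mul_left (1 - X ^ (2 * k + 1) : ℤ⟦X⟧)
  have h2 := (hasSum_nat_add_iff' 1).2 h1
  simp only [sum_range_one, tT_zero, tT_succ] at h2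
  have h3 := (hasSum_TT (k + 1)).mul_left
    (X ^ 2 * (1 + X ^ (2 * k + 1)) * (1 + X ^ (2 * k + 2)) : ℤ⟦X⟧)
  have h4 := h2.unique h3
  linear_combination h4

/-- denominators `∏_{j < n} (1 + q^{2j+2})` -/
noncomputable def dK (n : ℕ) : ℤ⟦X⟧ := ∏ j ∈ range n, (1 + X ^ (2 * j + 2))

/-- numerators `∏_{j < n} (1 + q^{2k+1+2j})` -/
noncomputable def nK (k n : ℕ) : ℤ⟦X⟧ := ∏ j ∈ range n, (1 + X ^ (2 * k + 1 + 2 * j))

/-- terms of the second series -/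
noncomputable def tK (k n : ℕ) : ℤ⟦X⟧ := (-X) ^ n * nK k n * iv (dK n)

theorem cc_dK (n : ℕ) : constantCoeff (dK n) = 1 :=
  cc_prod _ _ fun j _ => cc_add (by omega)

theorem dK_succ (n : ℕ) : dK (n + 1) = dK n * (1 + X ^ (2 * n + 2)) := by
  unfold dK; rw [prod_range_succ]

theorem nK_succ (k n : ℕ) : nK k (n + 1) = nK k n * (1 + X ^ (2 * k + 1 + 2 * n)) := by
  unfold nK; rw [prod_range_succ]

theorem nK_shift (k n : ℕ) : (1 + X ^ (2 * k + 1)) * nK (k + 1) n =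
    (1 + X ^ (2 * k + 1 + 2 * n)) * nK k n := by
  have h1 := nK_succ k n
  have h2 : nK k (n + 1) = (1 + X ^ (2 * k + 1)) * nK (k + 1) n := by
    unfold nK
    rw [prod_range_succ', mul_comm]
    congr 1
    refine prod_congr rfl fun j _ => ?_
    congr 2
    ring
  rw [← h2, h1]
  ring

theorem X_pow_dvd_neg (n : ℕ) : (X : ℤ⟦X⟧) ^ n ∣ (-X) ^ n := by
  rw [neg_pow]
  exact Dvd.intro_left _ rfl

theorem tK_dvd (k n : ℕ) : (X : ℤ⟦X⟧) ^ n ∣ tK k n := by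
  unfold tK
  exact ((X_pow_dvd_neg n).mul_right _).mul_right _

theorem tK_succ (k n : ℕ) : (1 + X ^ (2 * n + 2)) * tK k (n + 1) =
    -X * (1 + X ^ (2 * k + 1 + 2 * n)) * tK k n := by
  unfold tK
  have c1 : constantCoeff (1 + X ^ (2 * n + 2) : ℤ⟦X⟧) = 1 := cc_add (by omega)
  rw [dK_succ, nK_succ, iv_mul (cc_dK _) c1]
  have h := mul_iv c1
  rw [pow_succ (-X) n]
  generalize iv (1 + X ^ (2 * n + 2)) = w at h ⊢
  linear_combination ((-X) ^ n * (-X) * (nK k n * (1 + X ^ (2 * k + 1 + 2 * n))) * iv (dK n)) * h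

theorem tK_shift (k n : ℕ) : (1 + X ^ (2 * k + 1)) * tK (k + 1) n =
    (1 + X ^ (2 * k + 1 + 2 * n)) * tK k n := by
  unfold tK
  linear_combination ((-X) ^ n * iv (dK n)) * nK_shift k n

/-- the second series -/
noncomputable def KK (k : ℕ) : ℤ⟦X⟧ := ∑' n, tK k n

theorem hasSum_KK (k : ℕ) : HasSum (tK k) (KK k) := (summable_dvd (tK_dvd k)).hasSum

theorem KK_rec (k : ℕ) : (1 - X ^ (2 * k + 1)) * KK k + 2 * X ^ (2 * k + 1) =
    (1 + X ^ (2 * k + 1)) * (1 + X ^ (2 * k + 2)) * KK (k + 1) := by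
  have h1 := (hasSum_KK k).mul_left (1 - X ^ (2 * k + 1) : ℤ⟦X⟧)
  have h2 := (hasSum_KK (k + 1)).mul_left
    ((1 + X ^ (2 * k + 1)) * (1 + X ^ (2 * k + 2)) : ℤ⟦X⟧)
  have hv : ∀ n, (X : ℤ⟦X⟧) ^ n ∣ X ^ (2 * k + 1) * ((1 + X ^ (2 * n)) * tK k n) := fun n =>
    ((tK_dvd k n).mul_left _).mul_left _
  have h3 := hasSum_tel hv
  have h4 := h2.sub h1
  have e : (fun n => (1 + X ^ (2 * k + 1)) * (1 + X ^ (2 * k + 2)) * tK (k + 1) n -
      (1 - X ^ (2 * k + 1)) * tK k n) = fun n => X ^ (2 * k + 1) * ((1 + X ^ (2 * n)) * tK k n) -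
      X ^ (2 * k + 1) * ((1 + X ^ (2 * (n + 1))) * tK k (n + 1)) := by
    funext n
    have a1 := tK_shift k n
    have a2 := tK_succ k n
    have e1 : (X : ℤ⟦X⟧) ^ (2 * k + 2) = X ^ (2 * k + 1) * X := by rw [← pow_succ]
    have e2 : (X : ℤ⟦X⟧) ^ (2 * k + 1 + 2 * n) = X ^ (2 * k + 1) * X ^ (2 * n) := by rw [pow_add]
    have e3 : (X : ℤ⟦X⟧) ^ (2 * (n + 1)) = X ^ (2 * n + 2) := by congr 1
    rw [e2] at a1 a2
    rw [e1, e3]
    linear_combination (1 + X ^ (2 * k + 1) * X) * a1 + X ^ (2 * k + 1) * a2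
  rw [e] at h4
  have h5 := h4.unique h3
  have e0 : X ^ (2 * k + 1) * ((1 + X ^ (2 * 0)) * tK k 0) = 2 * (X : ℤ⟦X⟧) ^ (2 * k + 1) := by
    unfold tK nK dK
    simp only [mul_zero, pow_zero, range_zero, prod_empty, one_mul, iv_one]
    ring
  rw [e0] at h5
  linear_combination -h5

/-- the combination -/
noncomputable def EE (k : ℕ) : ℤ⟦X⟧ := 2 * X ^ (2 * k + 1) * TT k + KK k

theorem EE_rec (k : ℕ) : (1 - X ^ (2 * k + 1)) * EE k =
    (1 + X ^ (2 * k + 1)) * (1 + X ^ (2 * k + 2)) * EE (k + 1) := by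
  have h1 := TT_rec k
  have h2 := KK_rec k
  have e1 : (X : ℤ⟦X⟧) ^ (2 * (k + 1) + 1) = X ^ (2 * k + 1) * X ^ 2 := by
    rw [← pow_add]; congr 1
  unfold EE
  rw [e1]
  linear_combination (2 * X ^ (2 * k + 1)) * h1 + h2

/-- `∏_{j < n} (1 - q^{2j+1})` -/
noncomputable def AO (n : ℕ) : ℤ⟦X⟧ := ∏ j ∈ range n, (1 - X ^ (2 * j + 1))

theorem EE_prod (n : ℕ) : AO n * EE 0 = M (X : ℤ⟦X⟧) (2 * n) * EE n := by
  induction n with
  | zero => simp [AO, M]
  | succ n ih =>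
    have h1 : AO (n + 1) = AO n * (1 - X ^ (2 * n + 1)) := by
      unfold AO; rw [prod_range_succ]
    rw [h1, show 2 * (n + 1) = 2 * n + 1 + 1 by ring, M_succ, M_succ]
    have h2 := EE_rec n
    rw [show 2 * n + 1 + 1 = 2 * n + 2 by ring]
    linear_combination (1 - X ^ (2 * n + 1)) * ih + M (X : ℤ⟦X⟧) (2 * n) * h2

/-- the limit of the second series -/
noncomputable def tKi (n : ℕ) : ℤ⟦X⟧ := (-X) ^ n * iv (dK n)

noncomputable def KI : ℤ⟦X⟧ := ∑' n, tKi n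

theorem tKi_dvd (n : ℕ) : (X : ℤ⟦X⟧) ^ n ∣ tKi n := by
  unfold tKi
  exact (X_pow_dvd_neg n).mul_right _

theorem hasSum_KI : HasSum tKi KI := (summable_dvd tKi_dvd).hasSum

theorem nK_sub (k n : ℕ) : (X : ℤ⟦X⟧) ^ k ∣ nK k n - 1 := by
  induction n with
  | zero => simp [nK]
  | succ n ih =>
    rw [nK_succ]
    have h1 : (X : ℤ⟦X⟧) ^ k ∣ X ^ (2 * k + 1 + 2 * n) := pow_dvd_pow _ (by omega)
    have e : nK k n * (1 + X ^ (2 * k + 1 + 2 * n)) - 1 =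
        (nK k n - 1) + X ^ (2 * k + 1 + 2 * n) * nK k n := by ring
    rw [e]
    exact dvd_add ih (h1.mul_right _)

theorem EE_sub (k : ℕ) : (X : ℤ⟦X⟧) ^ k ∣ EE k - KI := by
  have h1 : (X : ℤ⟦X⟧) ^ k ∣ KK k - KI := by
    refine dvd_of_hasSum ((hasSum_KK k).sub hasSum_KI) fun n => ?_
    have e : tK k n - tKi n = (-X) ^ n * iv (dK n) * (nK k n - 1) := by
      unfold tK tKi; ring
    rw [e]
    exact (nK_sub k n).mul_left _
  have h2 : (X : ℤ⟦X⟧) ^ k ∣ X ^ (2 * k + 1) := pow_dvd_pow _ (by omega)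
  have e : EE k - KI = X ^ (2 * k + 1) * (2 * TT k) + (KK k - KI) := by
    unfold EE; ring
  rw [e]
  exact dvd_add (h2.mul_right _) h1

theorem tendsto_EE : Tendsto EE atTop (𝓝 KI) := tendsto_of_dvd' EE_sub

/-- the product of the odd factors -/
noncomputable def AOi : ℤ⟦X⟧ := ∏' n, (1 - X ^ (2 * n + 1) : ℤ⟦X⟧)

theorem hasProd_AOi : HasProd (fun n => (1 - X ^ (2 * n + 1) : ℤ⟦X⟧)) AOi := by
  refine Multipliable.hasProd ?_
  have : Multipliable (fun n : ℕ => (1 + -X ^ (2 * n + 1) : ℤ⟦X⟧)) := by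
    refine WithPiTopology.multipliable_one_add_of_tendsto_order_atTop_nhds_top ℤ ?_
    simp_rw [order_neg, order_X_pow]
    refine ENat.tendsto_natCast_nhds_top.comp ?_
    exact tendsto_atTop_mono (fun n => by simp only [id]; omega) tendsto_id
  simpa [sub_eq_add_neg] using this

theorem tendsto_AO : Tendsto AO atTop (𝓝 AOi) := hasProd_AOi.tendsto_prod_nat

theorem AO_mul (n : ℕ) : P (X : ℤ⟦X⟧) (2 * n) = AO n * ∏ j ∈ range n, (1 - X ^ (2 * (j + 1))) := by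
  induction n with
  | zero => simp [P, AO]
  | succ n ih =>
    rw [show 2 * (n + 1) = 2 * n + 1 + 1 by ring, P_succ, P_succ, ih, prod_range_succ]
    unfold AO
    rw [prod_range_succ]
    rw [show 2 * (n + 1) = 2 * n + 1 + 1 by ring]
    ring

theorem AOi_mul : E1 = AOi * E2 := by
  have h1 : Tendsto (fun n => P (X : ℤ⟦X⟧) (2 * n)) atTop (𝓝 E1) :=
    tendsto_P.comp (tendsto_atTop_mono (fun n => by simp only [id]; omega) tendsto_id)
  have h2 := tendsto_AO.mul hasProd_E2.tendsto_prod_nat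
  refine tendsto_nhds_unique h1 ?_
  simpa only [AO_mul] using h2

theorem E2_ne : E2 ≠ 0 := by
  intro h
  have h1 : coeff 0 E2 = 1 := by
    unfold E2 E1
    rw [coeff_expand, if_pos (dvd_zero 2), Nat.zero_div]
    have := coeff_pentagonalSeries_pentagonal ℤ 0
    have e : pentagonal 0 = 0 := by decide
    rw [e] at this
    rw [this]
    simp
  rw [h, map_zero] at h1
  exact zero_ne_one h1

theorem AOi_Mi : AOi * Mi = 1 := by
  have h := E1_mul_Mi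
  rw [AOi_mul] at h
  have h2 : E2 * (AOi * Mi) = E2 * 1 := by linear_combination h
  exact mul_left_cancel₀ E2_ne h2

theorem three_term : EE 0 = KI * Mi ^ 2 := by
  have h1 : Tendsto (fun n => AO n * EE 0) atTop (𝓝 (AOi * EE 0)) := tendsto_AO.mul_const _
  have h2 : Tendsto (fun n => M (X : ℤ⟦X⟧) (2 * n)) atTop (𝓝 Mi) :=
    tendsto_M.comp (tendsto_atTop_mono (fun n => by simp only [id]; omega) tendsto_id)
  have h3 := h2.mul tendsto_EE
  simp only [EE_prod] at h1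
  have h4 := tendsto_nhds_unique h1 h3
  calc EE 0 = (AOi * Mi) * EE 0 := by rw [AOi_Mi, one_mul]
    _ = Mi * (AOi * EE 0) := by ring
    _ = _ := by rw [h4]; ring

end Pool.Agent.Q107.TO
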