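import Pool.Agent.Q107.TO.Theta

/-!
# Parity of the coefficients of `T_o`
-/

set_option autoImplicit false

namespace Pool.Agent.Q107.TO

open Finset PowerSeries Filter Topology
open scoped PowerSeries.WithPiTopology
open Pool.Agent.Q107.OD

theorem even_limit {f : ℕ → ℤ⟦X⟧} {a : ℤ⟦X⟧} (h : Tendsto f atTop (𝓝 a))
    (h2 : ∀ n, (2 : ℤ⟦X⟧) ∣ f n) (d : ℕ) : (2 : ℤ) ∣ coeff d a := by
  rw [WithPiTopology.tendsto_iff_coeff_tendsto] at h
  have h3 := h d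
  rw [nhds_discrete, tendsto_pure] at h3
  obtain ⟨n, hn⟩ := h3.exists
  rw [← hn]
  obtain ⟨g, hg⟩ := h2 n
  have : (2 : ℤ⟦X⟧) = C 2 := by rw [map_ofNat]
  rw [hg, this, coeff_C_mul]
  exact Dvd.intro _ rfl

theorem two_dvd_of_coeff {a : ℤ⟦X⟧} (h : ∀ d, (2 : ℤ) ∣ coeff d a) : ∃ b, a = 2 * b := by
  refine ⟨PowerSeries.mk fun d => coeff d a / 2, ?_⟩
  ext d
  have : (2 : ℤ⟦X⟧) = C 2 := by rw [map_ofNat]
  rw [this, coeff_C_mul, coeff_mk]
  have := h d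
  omega

theorem M_P (n : ℕ) : (2 : ℤ⟦X⟧) ∣ M (X : ℤ⟦X⟧) n - P (X : ℤ⟦X⟧) n := by
  induction n with
  | zero => simp [M, P]
  | succ n ih =>
    obtain ⟨g, hg⟩ := ih
    rw [M_succ, P_succ]
    refine ⟨g + X ^ (n + 1) * (P (X : ℤ⟦X⟧) n + g), ?_⟩
    linear_combination (1 + X ^ (n + 1)) * hg

theorem exists_Z : ∃ Z : ℤ⟦X⟧, Mi = E1 + 2 * Z := by
  obtain ⟨Z, hZ⟩ := two_dvd_of_coeff (even_limit (tendsto_M.sub tendsto_P) M_P)
  exact ⟨Z, by linear_combination hZ⟩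

theorem P_sq (n : ℕ) : (2 : ℤ⟦X⟧) ∣ P (X : ℤ⟦X⟧) n ^ 2 -
    ∏ j ∈ range n, (1 - X ^ (2 * (j + 1)) : ℤ⟦X⟧) := by
  induction n with
  | zero => simp [P]
  | succ n ih =>
    obtain ⟨g, hg⟩ := ih
    rw [prod_range_succ, P_succ]
    have e : (X : ℤ⟦X⟧) ^ (2 * (n + 1)) = X ^ (n + 1) * X ^ (n + 1) := by
      rw [← pow_add]; congr 1; ring
    rw [e]
    refine ⟨g * (1 - X ^ (n + 1) * X ^ (n + 1)) + P (X : ℤ⟦X⟧) n ^ 2 *
      (X ^ (n + 1) * X ^ (n + 1) - X ^ (n + 1)), ?_⟩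
    linear_combination (1 - X ^ (n + 1) * X ^ (n + 1)) * hg

theorem exists_W : ∃ W : ℤ⟦X⟧, E1 ^ 2 = E2 + 2 * W := by
  obtain ⟨W, hW⟩ := two_dvd_of_coeff (even_limit ((tendsto_P.pow 2).sub
    hasProd_E2.tendsto_prod_nat) P_sq)
  exact ⟨W, by linear_combination hW⟩

theorem pent_next (n : ℕ) : pentagonal ((n : ℤ) + 1) = pentagonal (-(n : ℤ)) + (2 * n + 1) := by
  have h1 := two_mul_natCast_pentagonal_neg (n : ℤ)
  have h2 := two_mul_natCast_pentagonal ((n : ℤ) + 1)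
  have h3 : 2 * (pentagonal ((n : ℤ) + 1) : ℤ) = 2 * (pentagonal (-(n : ℤ)) : ℤ) +
      2 * (2 * n + 1) := by
    rw [h1, h2]; ring
  omega

theorem hasSum_E1' : HasSum (fun n : ℕ => (-1) ^ n * p0 n) E1 := by
  have h := WithPiTopology.hasSum_pow_pentagonal_sub_pentagonalSeries ℤ
  have e : (fun n : ℕ => (-1) ^ n * p0 n) =
      fun k : ℕ => (-1) ^ k * ((X : ℤ⟦X⟧) ^ pentagonal (-k) - X ^ pentagonal (k + 1)) := by
    funext n
    rw [pent_next, p0, pow_add]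
    ring
  rw [e]
  exact h

/-- the odd part of the false theta series -/
noncomputable def oO (n : ℕ) : ℤ⟦X⟧ := if Even n then 0 else p0 n

noncomputable def OO : ℤ⟦X⟧ := ∑' n, oO n

theorem hasSum_OO : HasSum oO OO := by
  refine (summable_dvd fun n => ?_).hasSum
  unfold oO
  split_ifs
  · exact dvd_zero _
  · exact p0_dvd n

theorem La_eq : La 0 = E1 + 2 * OO := by
  have h1 := hasSum_E1'.add (hasSum_OO.mul_left 2)
  refine hasSum_La0.unique ?_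
  have e : (fun n => (-1) ^ n * p0 n + 2 * oO n) = p0 := by
    funext n
    unfold oO
    split_ifs with h
    · rw [h.neg_one_pow]; ring
    · rw [(Nat.not_even_iff_odd.1 h).neg_one_pow]; ring
  rw [e] at h1
  exact h1

/-- triangular exponents `n(2n+1)` and `(n+1)(2n+1)` -/
noncomputable def c1 (n : ℕ) : ℤ⟦X⟧ := X ^ (n * (2 * n + 1) + (2 * n + 1))

noncomputable def Do : ℤ⟦X⟧ := ∑' n, c1 n

theorem hasSum_Do : HasSum c1 Do := by
  refine (summable_dvd fun n => ?_).hasSum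
  unfold c1
  exact pow_dvd_pow _ (by nlinarith)

theorem choose_even (n : ℕ) : (2 * n + 1).choose 2 = n * (2 * n + 1) := by
  have := two_choose (2 * n)
  nlinarith

theorem choose_odd (n : ℕ) : (2 * n + 1 + 1).choose 2 = n * (2 * n + 1) + (2 * n + 1) := by
  have := two_choose (2 * n + 1)
  nlinarith

theorem hasSum_T1' : HasSum (fun k : ℕ => (-1) ^ k * (2 * (k : ℤ⟦X⟧) + 1) * X ^ ((k + 1).choose 2))
    T1 := by
  have h := hasSum_T1.nat_add_neg_add_one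
  have e : (fun k : ℕ => (-1) ^ k * (2 * (k : ℤ⟦X⟧) + 1) * X ^ ((k + 1).choose 2)) =
      fun n : ℕ => (monomial (tri n)) (sg n * n) +
        (monomial (tri (-(n + 1)))) (sg (-(n + 1)) * -(n + 1) : ℤ) := by
    funext k
    rw [tri_neg, tri_nat, ← map_add]
    have e2 : sg (k : ℤ) * k + sg (-((k : ℤ) + 1)) * (-((k : ℤ) + 1)) = (-1) ^ k * (2 * k + 1) := by
      rw [sg_neg, sg_add, show sg 1 = -1 by decide, ← sg_natAbs (k : ℤ), Int.natAbs_natCast]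
      ring
    rw [e2, monomial_eq_C_mul_X_pow]
    simp
  rw [e]
  exact h

theorem hasSum_pairs {f : ℕ → ℤ⟦X⟧} {a : ℤ⟦X⟧} (h : HasSum f a) (hd : ∀ n, (X : ℤ⟦X⟧) ^ n ∣ f n) :
    HasSum (fun n => f (2 * n) + f (2 * n + 1)) a := by
  have h1 : Summable fun n => f (2 * n) :=
    summable_dvd fun n => (pow_dvd_pow _ (by omega)).trans (hd (2 * n))
  have h2 : Summable fun n => f (2 * n + 1) :=
    summable_dvd fun n => (pow_dvd_pow _ (by omega)).trans (hd (2 * n + 1))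
  have h3 := h1.hasSum.even_add_odd h2.hasSum
  have h4 := h3.unique h
  have h5 := h1.hasSum.add h2.hasSum
  rw [h4] at h5
  exact h5

theorem exists_Y : ∃ Y : ℤ⟦X⟧, T1 = Ph 0 + 2 * Do + 4 * Y := by
  have hd : ∀ k : ℕ, (X : ℤ⟦X⟧) ^ k ∣ (-1) ^ k * (2 * (k : ℤ⟦X⟧) + 1) * X ^ ((k + 1).choose 2) := by
    intro k
    refine Dvd.dvd.mul_left (pow_dvd_pow _ ?_) _
    have := two_choose k
    nlinarith
  have h1 := hasSum_pairs hasSum_T1' hd
  have h2 := hasSum_Ph0.add (hasSum_Do.mul_left 2)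
  have hs : ∀ n : ℕ, (X : ℤ⟦X⟧) ^ n ∣ (n : ℤ⟦X⟧) * X ^ (n * (2 * n + 1)) - ((n : ℤ⟦X⟧) + 1) * c1 n := by
    intro n
    refine dvd_sub (Dvd.dvd.mul_left (pow_dvd_pow _ (by nlinarith)) _) (Dvd.dvd.mul_left ?_ _)
    unfold c1
    exact pow_dvd_pow _ (by nlinarith)
  have h3 := (summable_dvd hs).hasSum
  refine ⟨∑' b : ℕ, ((b : ℤ⟦X⟧) * X ^ (b * (2 * b + 1)) - ((b : ℤ⟦X⟧) + 1) * c1 b), h1.unique ?_⟩
  · have h4 := h2.add (h3.mul_left 4)
    have e : (fun n : ℕ => (-1) ^ (2 * n) * (2 * ((2 * n : ℕ) : ℤ⟦X⟧) + 1) *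
        X ^ ((2 * n + 1).choose 2) + (-1) ^ (2 * n + 1) * (2 * ((2 * n + 1 : ℕ) : ℤ⟦X⟧) + 1) *
        X ^ ((2 * n + 1 + 1).choose 2)) =
        fun n : ℕ => c0 n + 2 * c1 n + 4 * ((n : ℤ⟦X⟧) * X ^ (n * (2 * n + 1)) - ((n : ℤ⟦X⟧) + 1) * c1 n) := by
      funext n
      rw [choose_even, choose_odd]
      have s1 : (-1 : ℤ⟦X⟧) ^ (2 * n) = 1 := by rw [pow_mul]; simp
      have s2 : (-1 : ℤ⟦X⟧) ^ (2 * n + 1) = -1 := by rw [pow_succ, s1]; ring
      rw [s1, s2, c0, c1, pow_add]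
      push_cast
      ring
    rw [e]
    exact h4

theorem parity_identity : ∃ V : ℤ⟦X⟧, X * TT 0 = OO * E2 + Do + 2 * V := by
  obtain ⟨Z, hZ⟩ := exists_Z
  obtain ⟨W, hW⟩ := exists_W
  obtain ⟨Y, hY⟩ := exists_Y
  have h := main
  have hj := jacobi
  rw [La_eq, hZ] at h
  refine ⟨Y + E1 ^ 2 * Z + E1 * Z ^ 2 + OO * W + 2 * OO * (E1 * Z + Z ^ 2), ?_⟩
  have h2 : (2 : ℤ⟦X⟧) * (X * TT 0) = 2 * (OO * E2 + Do + 2 * (Y + E1 ^ 2 * Z + E1 * Z ^ 2 +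
      OO * W + 2 * OO * (E1 * Z + Z ^ 2))) := by
    linear_combination h + hj + hY + 2 * OO * hW
  ext d
  have h3 := congrArg (coeff d) h2
  have : (2 : ℤ⟦X⟧) = C 2 := by rw [map_ofNat]
  rw [this, coeff_C_mul, coeff_C_mul] at h3
  rw [this]
  omega

theorem coeff_zero_of_terms {f : ℕ → ℤ⟦X⟧} {a : ℤ⟦X⟧} (h : HasSum f a) (d : ℕ)
    (h2 : ∀ n, coeff d (f n) = 0) : coeff d a = 0 := by
  have h1 := (WithPiTopology.hasSum_iff_hasSum_coeff ℤ).1 h d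
  rw [show (fun i => coeff d (f i)) = fun _ => (0 : ℤ) from funext h2] at h1
  exact h1.unique hasSum_zero

theorem OO_coeff (i : ℕ) (h : ¬ ∃ x : ℤ, 24 * (i : ℤ) + 1 = x ^ 2) : coeff i OO = 0 := by
  refine coeff_zero_of_terms hasSum_OO i fun n => ?_
  unfold oO
  split_ifs
  · exact map_zero _
  · have e : p0 n = X ^ (pentagonal (-(n : ℤ))) - X ^ (pentagonal ((n : ℤ) + 1)) := by
      rw [pent_next, p0, pow_add]; ring
    rw [e, map_sub, coeff_X_pow, coeff_X_pow, if_neg, if_neg, sub_zero]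
    · intro hi
      apply h
      have h2 := two_mul_natCast_pentagonal ((n : ℤ) + 1)
      refine ⟨6 * n + 5, ?_⟩
      rw [hi]
      linear_combination 12 * h2
    · intro hi
      apply h
      have h2 := two_mul_natCast_pentagonal_neg (n : ℤ)
      refine ⟨6 * n + 1, ?_⟩
      rw [hi]
      linear_combination 12 * h2

theorem E2_coeff (j : ℕ) (h : ¬ ∃ y : ℤ, 12 * (j : ℤ) + 1 = y ^ 2) : coeff j E2 = 0 := by
  unfold E2 E1
  rw [coeff_expand]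
  split_ifs with h2
  · refine coeff_pentagonalSeries_eq_zero ℤ ?_
    rintro ⟨k, hk⟩
    apply h
    have h3 := two_mul_natCast_pentagonal k
    refine ⟨6 * k - 1, ?_⟩
    have h4 : (j : ℤ) = 2 * (pentagonal k : ℤ) := by
      rw [hk]; omega
    rw [h4]
    linear_combination 12 * h3
  · rfl

theorem Do_coeff (i : ℕ) (h : ¬ ∃ x : ℤ, 8 * (i : ℤ) + 1 = x ^ 2) : coeff i Do = 0 := by
  refine coeff_zero_of_terms hasSum_Do i fun n => ?_
  unfold c1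
  rw [coeff_X_pow, if_neg]
  intro hi
  apply h
  refine ⟨4 * n + 3, ?_⟩
  rw [hi]
  push_cast
  ring

theorem descent (m x y : ℤ) (h : 3 * m = x ^ 2 + 2 * y ^ 2) :
    ∃ x' y' : ℤ, m = x' ^ 2 + 2 * y' ^ 2 := by
  have h1 : (3 : ℤ) ∣ (x - y) * (x + y) := ⟨m - y ^ 2, by linear_combination -h⟩
  rcases (Int.prime_three.dvd_mul).1 h1 with ⟨t, ht⟩ | ⟨t, ht⟩
  · refine ⟨y + t, t, ?_⟩
    have hx : x = y + 3 * t := by linarith
    rw [hx] at h
    have : 3 * m = 3 * ((y + t) ^ 2 + 2 * t ^ 2) := by rw [h]; ring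
    exact mul_left_cancel₀ (by norm_num) this
  · refine ⟨-y + t, t, ?_⟩
    have hx : x = -y + 3 * t := by linarith
    rw [hx] at h
    have : 3 * m = 3 * ((-y + t) ^ 2 + 2 * t ^ 2) := by rw [h]; ring
    exact mul_left_cancel₀ (by norm_num) this

theorem even_coeff (n : ℕ) (h : ¬ ∃ x y : ℤ, 8 * (n : ℤ) + 9 = x ^ 2 + 2 * y ^ 2) :
    (2 : ℤ) ∣ coeff n (TT 0) := by
  obtain ⟨V, hV⟩ := parity_identity
  have h1 := congrArg (coeff (n + 1)) hV
  rw [coeff_succ_X_mul, map_add, map_add] at h1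
  have h2 : coeff (n + 1) Do = 0 := by
    refine Do_coeff _ ?_
    rintro ⟨x, hx⟩
    apply h
    refine ⟨x, 0, ?_⟩
    push_cast at hx
    linear_combination hx
  have h3 : coeff (n + 1) (OO * E2) = 0 := by
    rw [coeff_mul]
    refine sum_eq_zero ?_
    rintro ⟨i, j⟩ hij
    rw [HasAntidiagonal.mem_antidiagonal] at hij
    simp only at hij ⊢
    by_cases hi : ∃ x : ℤ, 24 * (i : ℤ) + 1 = x ^ 2
    · by_cases hj : ∃ y : ℤ, 12 * (j : ℤ) + 1 = y ^ 2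
      · exfalso
        obtain ⟨x, hx⟩ := hi
        obtain ⟨y, hy⟩ := hj
        apply h
        refine descent _ x y ?_
        have : (i : ℤ) + j = n + 1 := by exact_mod_cast hij
        linear_combination hx + 2 * hy - 24 * this
      · rw [E2_coeff j hj, mul_zero]
    · rw [OO_coeff i hi, zero_mul]
  rw [h2, h3] at h1
  have : (2 : ℤ⟦X⟧) = C 2 := by rw [map_ofNat]
  rw [this, coeff_C_mul] at h1
  exact ⟨coeff (n + 1) V, by rw [h1]; ring⟩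

theorem coeff_TT (n : ℕ) : coeff n (TT 0) = ∑ m ∈ range (n + 1), coeff n (tT 0 m) := by
  have h1 := (WithPiTopology.hasSum_iff_hasSum_coeff ℤ).1 (hasSum_TT 0) n
  refine h1.unique (hasSum_sum_of_ne_finset_zero fun m hm => ?_)
  rw [mem_range, not_lt] at hm
  exact X_pow_dvd_iff.1 (tT_dvd 0 m) n (by omega)

end Pool.Agent.Q107.TO
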