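import Pool.Agent.Q107.TO.Fam

/-!
# Evaluation of the two one-variable series as (false) theta series
-/

set_option autoImplicit false

namespace Pool.Agent.Q107.TO

open Finset PowerSeries Filter Topology
open scoped PowerSeries.WithPiTopology
open Pool.Agent.Q107.OD

theorem hasSum_of_dvd {c : ℕ → ℤ⟦X⟧} {a : ℤ⟦X⟧} (h : ∀ n, (X : ℤ⟦X⟧) ^ n ∣ c n)
    (h2 : ∀ n, (X : ℤ⟦X⟧) ^ n ∣ (∑ j ∈ range n, c j) - a) : HasSum c a := by
  have h3 := (summable_dvd h).hasSum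
  have h4 := tendsto_nhds_unique h3.tendsto_sum_nat (tendsto_of_dvd' h2)
  rwa [h4] at h3

/-- denominators `∏_{j < m} (1 + q^{2n+2+2j})` -/
noncomputable def dP (n m : ℕ) : ℤ⟦X⟧ := ∏ j ∈ range m, (1 + X ^ (2 * n + 2 + 2 * j))

theorem cc_dP (n m : ℕ) : constantCoeff (dP n m) = 1 :=
  cc_prod _ _ fun j _ => cc_add (by omega)

theorem dP_succ (n m : ℕ) : dP n (m + 1) = dP n m * (1 + X ^ (2 * n + 2 + 2 * m)) := by
  unfold dP; rw [prod_range_succ]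

theorem dP_succ' (n m : ℕ) : dP n (m + 1) = (1 + X ^ (2 * n + 2)) * dP (n + 1) m := by
  unfold dP
  rw [prod_range_succ', mul_comm]
  congr 1
  refine prod_congr rfl fun j _ => ?_
  congr 2
  ring

theorem nK_succ' (n m : ℕ) : nK n (m + 1) = (1 + X ^ (2 * n + 1)) * nK (n + 1) m := by
  unfold nK
  rw [prod_range_succ', mul_comm]
  congr 1
  refine prod_congr rfl fun j _ => ?_
  congr 2
  ring

/-- terms -/
noncomputable def fP (n m : ℕ) : ℤ⟦X⟧ := (-X ^ (2 * n + 1)) ^ m * nK n m * iv (dP n m)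

noncomputable def gP (n m : ℕ) : ℤ⟦X⟧ := (-X ^ (2 * n + 1)) ^ m * iv (dP n m)

theorem X_pow_dvd_neg' (n m : ℕ) : (X : ℤ⟦X⟧) ^ m ∣ (-X ^ (2 * n + 1)) ^ m := by
  rw [neg_pow, ← pow_mul]
  exact (pow_dvd_pow _ (by nlinarith)).mul_left _

theorem fP_dvd (n m : ℕ) : (X : ℤ⟦X⟧) ^ m ∣ fP n m := by
  unfold fP
  exact ((X_pow_dvd_neg' n m).mul_right _).mul_right _

theorem gP_dvd (n m : ℕ) : (X : ℤ⟦X⟧) ^ m ∣ gP n m := by
  unfold gP
  exact (X_pow_dvd_neg' n m).mul_right _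

theorem fP_one (n m : ℕ) : (1 + X ^ (2 * n + 2 + 2 * m)) * fP n (m + 1) +
    X ^ (2 * n + 1) * (1 + X ^ (2 * n + 1 + 2 * m)) * fP n m = 0 := by
  unfold fP
  have c1 : constantCoeff (1 + X ^ (2 * n + 2 + 2 * m) : ℤ⟦X⟧) = 1 := cc_add (by omega)
  rw [dP_succ, nK_succ, iv_mul (cc_dP _ _) c1]
  have h := mul_iv c1
  rw [pow_succ (-X ^ (2 * n + 1)) m]
  generalize iv (1 + X ^ (2 * n + 2 + 2 * m)) = w at h ⊢
  generalize (-X ^ (2 * n + 1) : ℤ⟦X⟧) ^ m = y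
  linear_combination (-(y * X ^ (2 * n + 1) * (nK n m * (1 + X ^ (2 * n + 1 + 2 * m))) *
    iv (dP n m))) * h

theorem fP_two (n m : ℕ) : (1 + X ^ (2 * n + 2)) * X ^ (2 * m) * fP n (m + 1) +
    X ^ (2 * n + 1) * (1 + X ^ (2 * n + 1)) * fP (n + 1) m = 0 := by
  unfold fP
  have c1 : constantCoeff (1 + X ^ (2 * n + 2) : ℤ⟦X⟧) = 1 := cc_add (by omega)
  rw [dP_succ', nK_succ', iv_mul c1 (cc_dP _ _)]
  have h := mul_iv c1
  have e : (-X ^ (2 * (n + 1) + 1) : ℤ⟦X⟧) ^ m = (-X ^ (2 * n + 1)) ^ m * X ^ (2 * m) := by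
    rw [pow_mul X 2 m, ← mul_pow]
    congr 1
    rw [show 2 * (n + 1) + 1 = 2 * n + 1 + 2 by ring, pow_add X (2 * n + 1) 2]
    ring
  rw [e, pow_succ (-X ^ (2 * n + 1)) m]
  generalize iv (1 + X ^ (2 * n + 2)) = w at h ⊢
  generalize (-X ^ (2 * n + 1) : ℤ⟦X⟧) ^ m = y
  linear_combination (-(y * X ^ (2 * n + 1) * X ^ (2 * m) * ((1 + X ^ (2 * n + 1)) * nK (n + 1) m) *
    iv (dP (n + 1) m))) * h

theorem gP_one (n m : ℕ) : (1 + X ^ (2 * n + 2 + 2 * m)) * gP n (m + 1) +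
    X ^ (2 * n + 1) * gP n m = 0 := by
  unfold gP
  have c1 : constantCoeff (1 + X ^ (2 * n + 2 + 2 * m) : ℤ⟦X⟧) = 1 := cc_add (by omega)
  rw [dP_succ, iv_mul (cc_dP _ _) c1]
  have h := mul_iv c1
  rw [pow_succ (-X ^ (2 * n + 1)) m]
  generalize iv (1 + X ^ (2 * n + 2 + 2 * m)) = w at h ⊢
  generalize (-X ^ (2 * n + 1) : ℤ⟦X⟧) ^ m = y
  linear_combination (-(y * X ^ (2 * n + 1) * iv (dP n m))) * h

theorem gP_two (n m : ℕ) : (1 + X ^ (2 * n + 2)) * X ^ (2 * m) * gP n (m + 1) +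
    X ^ (2 * n + 1) * gP (n + 1) m = 0 := by
  unfold gP
  have c1 : constantCoeff (1 + X ^ (2 * n + 2) : ℤ⟦X⟧) = 1 := cc_add (by omega)
  rw [dP_succ', iv_mul c1 (cc_dP _ _)]
  have h := mul_iv c1
  have e : (-X ^ (2 * (n + 1) + 1) : ℤ⟦X⟧) ^ m = (-X ^ (2 * n + 1)) ^ m * X ^ (2 * m) := by
    rw [pow_mul X 2 m, ← mul_pow]
    congr 1
    rw [show 2 * (n + 1) + 1 = 2 * n + 1 + 2 by ring, pow_add X (2 * n + 1) 2]
    ring
  rw [e, pow_succ (-X ^ (2 * n + 1)) m]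
  generalize iv (1 + X ^ (2 * n + 2)) = w at h ⊢
  generalize (-X ^ (2 * n + 1) : ℤ⟦X⟧) ^ m = y
  linear_combination (-(y * X ^ (2 * n + 1) * X ^ (2 * m) * iv (dP (n + 1) m))) * h

/-- first family -/
noncomputable def Ph (n : ℕ) : ℤ⟦X⟧ := ∑' m, fP n m

theorem hasSum_Ph (n : ℕ) : HasSum (fP n) (Ph n) := (summable_dvd (fP_dvd n)).hasSum

/-- second family -/
noncomputable def Ps (n : ℕ) : ℤ⟦X⟧ := ∑' m, gP n m

theorem hasSum_Ps (n : ℕ) : HasSum (gP n) (Ps n) := (summable_dvd (gP_dvd n)).hasSum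

theorem fP_zero (n : ℕ) : fP n 0 = 1 := by
  unfold fP nK dP
  simp [iv_one]

theorem gP_zero (n : ℕ) : gP n 0 = 1 := by
  unfold gP dP
  simp [iv_one]

theorem Ph_rec (n : ℕ) : Ph n = (1 - X ^ (2 * n + 1)) + X ^ (4 * n + 3) * Ph (n + 1) := by
  have h1 := ((hasSum_Ph n).sub ((hasSum_Ph (n + 1)).mul_left (X ^ (4 * n + 3) : ℤ⟦X⟧))).mul_left
    (1 + X ^ (2 * n + 1) : ℤ⟦X⟧)
  have hv : ∀ m, (X : ℤ⟦X⟧) ^ m ∣ (1 - X ^ (4 * n + 2 + 2 * m)) * fP n m := fun m =>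
    (fP_dvd n m).mul_left _
  have h2 := hasSum_tel hv
  have e : (fun m => (1 + X ^ (2 * n + 1)) * (fP n m - X ^ (4 * n + 3) * fP (n + 1) m)) =
      fun m => (1 - X ^ (4 * n + 2 + 2 * m)) * fP n m -
        (1 - X ^ (4 * n + 2 + 2 * (m + 1))) * fP n (m + 1) := by
    funext m
    have r1 := fP_one n m
    have r2 := fP_two n m
    have e1 : (X : ℤ⟦X⟧) ^ (4 * n + 3) = X ^ (2 * n + 1) * X ^ (2 * n + 1) * X := by
      rw [← pow_add, ← pow_succ]; congr 1; ring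
    have e2 : (X : ℤ⟦X⟧) ^ (4 * n + 2 + 2 * m) = X ^ (2 * n + 1) * X ^ (2 * n + 1) * X ^ (2 * m) := by
      rw [← pow_add, ← pow_add]; congr 1; ring
    have e3 : (X : ℤ⟦X⟧) ^ (4 * n + 2 + 2 * (m + 1)) =
        X ^ (2 * n + 1) * X ^ (2 * n + 1) * X ^ (2 * m) * X ^ 2 := by
      rw [← pow_add, ← pow_add, ← pow_add]; congr 1; ring
    have e4 : (X : ℤ⟦X⟧) ^ (2 * n + 2 + 2 * m) = X ^ (2 * n + 1) * X * X ^ (2 * m) := by
      rw [← pow_succ, ← pow_add]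
    have e5 : (X : ℤ⟦X⟧) ^ (2 * n + 1 + 2 * m) = X ^ (2 * n + 1) * X ^ (2 * m) := by
      rw [← pow_add]
    have e6 : (X : ℤ⟦X⟧) ^ (2 * n + 2) = X ^ (2 * n + 1) * X := by
      rw [← pow_succ]
    rw [e4, e5] at r1
    rw [e6] at r2
    rw [e1, e2, e3]
    generalize (X : ℤ⟦X⟧) ^ (2 * n + 1) = a at *
    generalize (X : ℤ⟦X⟧) ^ (2 * m) = y at *
    linear_combination r1 - a * X * r2
  rw [e] at h1
  have h3 := h1.unique h2
  rw [mul_zero, add_zero, fP_zero] at h3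
  have c1 : constantCoeff (1 + X ^ (2 * n + 1) : ℤ⟦X⟧) = 1 := cc_add (by omega)
  refine cancel c1 ?_
  have e1 : (X : ℤ⟦X⟧) ^ (4 * n + 2) = X ^ (2 * n + 1) * X ^ (2 * n + 1) := by
    rw [← pow_add]; congr 1; ring
  rw [e1] at h3
  linear_combination h3

theorem Ps_rec (n : ℕ) : (1 + X ^ (2 * n + 1)) * (1 + X ^ (2 * n + 2)) * Ps n =
    (1 + X ^ (2 * n + 2)) + X ^ (4 * n + 3) * Ps (n + 1) := by
  have h1 := ((hasSum_Ps n).mul_left ((1 + X ^ (2 * n + 1)) * (1 + X ^ (2 * n + 2)) : ℤ⟦X⟧)).sub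
    ((hasSum_Ps (n + 1)).mul_left (X ^ (4 * n + 3) : ℤ⟦X⟧))
  have hv : ∀ m, (X : ℤ⟦X⟧) ^ m ∣ (1 + X ^ (2 * n + 2)) * gP n m := fun m =>
    (gP_dvd n m).mul_left _
  have h2 := hasSum_tel hv
  have e : (fun m => (1 + X ^ (2 * n + 1)) * (1 + X ^ (2 * n + 2)) * gP n m -
      X ^ (4 * n + 3) * gP (n + 1) m) =
      fun m => (1 + X ^ (2 * n + 2)) * gP n m - (1 + X ^ (2 * n + 2)) * gP n (m + 1) := by
    funext m
    have r1 := gP_one n m
    have r2 := gP_two n m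
    have e1 : (X : ℤ⟦X⟧) ^ (4 * n + 3) = X ^ (2 * n + 1) * X ^ (2 * n + 1) * X := by
      rw [← pow_add, ← pow_succ]; congr 1; ring
    have e4 : (X : ℤ⟦X⟧) ^ (2 * n + 2 + 2 * m) = X ^ (2 * n + 1) * X * X ^ (2 * m) := by
      rw [← pow_succ, ← pow_add]
    have e6 : (X : ℤ⟦X⟧) ^ (2 * n + 2) = X ^ (2 * n + 1) * X := by
      rw [← pow_succ]
    rw [e4] at r1
    rw [e6] at r2
    rw [e1, e6]
    generalize (X : ℤ⟦X⟧) ^ (2 * n + 1) = a at *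
    generalize (X : ℤ⟦X⟧) ^ (2 * m) = y at *
    linear_combination (1 + a * X) * r1 - a * X * r2
  rw [e] at h1
  have h3 := h1.unique h2
  rw [gP_zero] at h3
  linear_combination h3

/-- terms of the first theta series -/
noncomputable def c0 (n : ℕ) : ℤ⟦X⟧ := X ^ (n * (2 * n + 1)) * (1 - X ^ (2 * n + 1))

theorem c0_dvd (n : ℕ) : (X : ℤ⟦X⟧) ^ n ∣ c0 n := by
  unfold c0
  exact (pow_dvd_pow _ (by nlinarith)).mul_right _

theorem Ph_iter (n : ℕ) : Ph 0 = (∑ j ∈ range n, c0 j) + X ^ (n * (2 * n + 1)) * Ph n := by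
  induction n with
  | zero => simp
  | succ n ih =>
    rw [sum_range_succ, ih, Ph_rec n]
    have e : (X : ℤ⟦X⟧) ^ ((n + 1) * (2 * (n + 1) + 1)) = X ^ (n * (2 * n + 1)) * X ^ (4 * n + 3) := by
      rw [← pow_add]; congr 1; ring
    rw [e]
    unfold c0
    ring

theorem hasSum_Ph0 : HasSum c0 (Ph 0) := by
  refine hasSum_of_dvd c0_dvd fun n => ?_
  have e : (∑ j ∈ range n, c0 j) - Ph 0 = X ^ (n * (2 * n + 1)) * (-Ph n) := by
    rw [Ph_iter n]; ring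
  rw [e]
  exact (pow_dvd_pow _ (by nlinarith)).mul_right _

theorem KK_zero : KK 0 = Ph 0 := by
  unfold KK Ph
  congr 1
  funext m
  unfold tK fP dK dP
  rw [mul_zero, zero_add, pow_one]
  congr 2
  refine prod_congr rfl fun j _ => ?_
  congr 2
  ring

theorem KI_eq : KI = Ps 0 := by
  unfold KI Ps
  congr 1
  funext m
  unfold tKi gP dK dP
  rw [mul_zero, zero_add, pow_one]
  congr 2
  refine prod_congr rfl fun j _ => ?_
  congr 2
  ring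

theorem cc_M (n : ℕ) : constantCoeff (M (X : ℤ⟦X⟧) n) = 1 := by
  unfold M
  exact cc_prod _ _ fun j _ => cc_add (by omega)

/-- denominators `∏_{j < k} (1 + q^{n+1+j})` -/
noncomputable def dL (n k : ℕ) : ℤ⟦X⟧ := ∏ j ∈ range k, (1 + X ^ (n + 1 + j))

theorem cc_dL (n k : ℕ) : constantCoeff (dL n k) = 1 :=
  cc_prod _ _ fun j _ => cc_add (by omega)

theorem dL_succ (n k : ℕ) : dL n (k + 1) = dL n k * (1 + X ^ (n + 1 + k)) := by
  unfold dL; rw [prod_range_succ]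

theorem dL_succ' (n k : ℕ) : dL n (k + 1) = (1 + X ^ (n + 1)) * dL (n + 1) k := by
  unfold dL
  rw [prod_range_succ', mul_comm]
  congr 1
  refine prod_congr rfl fun j _ => ?_
  congr 2
  ring

/-- terms -/
noncomputable def hL (n k : ℕ) : ℤ⟦X⟧ := (-X ^ (2 * n + 1)) ^ k * X ^ (k.choose 2) * iv (dL n k)

theorem hL_dvd (n k : ℕ) : (X : ℤ⟦X⟧) ^ k ∣ hL n k := by
  unfold hL
  exact ((X_pow_dvd_neg' n k).mul_right _).mul_right _

theorem hL_zero (n : ℕ) : hL n 0 = 1 := by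
  unfold hL dL
  simp [iv_one]

theorem hL_one (n k : ℕ) : (1 + X ^ (n + 1 + k)) * hL n (k + 1) +
    X ^ (2 * n + 1) * X ^ k * hL n k = 0 := by
  unfold hL
  have c1 : constantCoeff (1 + X ^ (n + 1 + k) : ℤ⟦X⟧) = 1 := cc_add (by omega)
  rw [dL_succ, iv_mul (cc_dL _ _) c1]
  have h := mul_iv c1
  have e : (X : ℤ⟦X⟧) ^ ((k + 1).choose 2) = X ^ (k.choose 2) * X ^ k := by
    rw [← pow_add]; congr 1
    rw [Nat.choose_succ_succ' k 1, Nat.choose_one_right]; ring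
  rw [pow_succ (-X ^ (2 * n + 1)) k, e]
  generalize iv (1 + X ^ (n + 1 + k)) = w at h ⊢
  generalize (-X ^ (2 * n + 1) : ℤ⟦X⟧) ^ k = y
  linear_combination (-(y * X ^ (2 * n + 1) * X ^ k * X ^ (k.choose 2) * iv (dL n k))) * h

theorem hL_two (n k : ℕ) : (1 + X ^ (n + 1)) * X ^ k * hL n (k + 1) +
    X ^ (2 * n + 1) * hL (n + 1) k = 0 := by
  unfold hL
  have c1 : constantCoeff (1 + X ^ (n + 1) : ℤ⟦X⟧) = 1 := cc_add (by omega)
  rw [dL_succ', iv_mul c1 (cc_dL _ _)]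
  have h := mul_iv c1
  have e : (X : ℤ⟦X⟧) ^ ((k + 1).choose 2) = X ^ (k.choose 2) * X ^ k := by
    rw [← pow_add]; congr 1
    rw [Nat.choose_succ_succ' k 1, Nat.choose_one_right]; ring
  have e2 : (-X ^ (2 * (n + 1) + 1) : ℤ⟦X⟧) ^ k = (-X ^ (2 * n + 1)) ^ k * (X ^ k * X ^ k) := by
    rw [← mul_pow X X k, ← mul_pow]
    congr 1
    rw [show 2 * (n + 1) + 1 = 2 * n + 1 + 2 by ring, pow_add X (2 * n + 1) 2]
    ring
  rw [pow_succ (-X ^ (2 * n + 1)) k, e, e2]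
  generalize iv (1 + X ^ (n + 1)) = w at h ⊢
  generalize (-X ^ (2 * n + 1) : ℤ⟦X⟧) ^ k = y
  linear_combination (-(y * X ^ (2 * n + 1) * X ^ k * X ^ k * X ^ (k.choose 2) *
    iv (dL (n + 1) k))) * h

noncomputable def La (n : ℕ) : ℤ⟦X⟧ := ∑' k, hL n k

theorem hasSum_La (n : ℕ) : HasSum (hL n) (La n) := (summable_dvd (hL_dvd n)).hasSum

theorem La_rec (n : ℕ) : La n = (1 - X ^ (2 * n + 1)) + X ^ (3 * n + 2) * La (n + 1) := by
  have h1 := (hasSum_La n).sub ((hasSum_La (n + 1)).mul_left (X ^ (3 * n + 2) : ℤ⟦X⟧))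
  have hv : ∀ k, (X : ℤ⟦X⟧) ^ k ∣ (1 - X ^ (2 * n + 1 + k)) * hL n k := fun k =>
    (hL_dvd n k).mul_left _
  have h2 := hasSum_tel hv
  have e : (fun k => hL n k - X ^ (3 * n + 2) * hL (n + 1) k) =
      fun k => (1 - X ^ (2 * n + 1 + k)) * hL n k -
        (1 - X ^ (2 * n + 1 + (k + 1))) * hL n (k + 1) := by
    funext k
    have r1 := hL_one n k
    have r2 := hL_two n k
    have e1 : (X : ℤ⟦X⟧) ^ (3 * n + 2) = X ^ n * X * (X ^ n * X ^ n * X) := by ring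
    have e2 : (X : ℤ⟦X⟧) ^ (2 * n + 1 + k) = X ^ n * X ^ n * X * X ^ k := by ring
    have e3 : (X : ℤ⟦X⟧) ^ (2 * n + 1 + (k + 1)) = X ^ n * X ^ n * X * X ^ k * X := by ring
    have e4 : (X : ℤ⟦X⟧) ^ (n + 1 + k) = X ^ n * X * X ^ k := by ring
    have e5 : (X : ℤ⟦X⟧) ^ (2 * n + 1) = X ^ n * X ^ n * X := by ring
    have e6 : (X : ℤ⟦X⟧) ^ (n + 1) = X ^ n * X := by ring
    rw [e4, e5] at r1
    rw [e5, e6] at r2
    rw [e1, e2, e3]
    generalize (X : ℤ⟦X⟧) ^ n = b at *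
    generalize (X : ℤ⟦X⟧) ^ k = y at *
    linear_combination r1 - b * X * r2
  rw [e] at h1
  have h3 := h1.unique h2
  rw [add_zero, hL_zero] at h3
  linear_combination h3

/-- terms of the false theta series -/
noncomputable def p0 (n : ℕ) : ℤ⟦X⟧ := X ^ (pentagonal (-n)) * (1 - X ^ (2 * n + 1))

theorem pent_step (n : ℕ) : pentagonal (-((n + 1 : ℕ) : ℤ)) = pentagonal (-(n : ℤ)) + (3 * n + 2) := by
  have h1 := two_mul_natCast_pentagonal_neg (n : ℤ)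
  have h2 := two_mul_natCast_pentagonal_neg ((n + 1 : ℕ) : ℤ)
  have h3 : 2 * (pentagonal (-((n + 1 : ℕ) : ℤ)) : ℤ) = 2 * (pentagonal (-(n : ℤ)) : ℤ) +
      2 * (3 * n + 2) := by
    rw [h1, h2]; push_cast; ring
  omega

theorem pent_ge (n : ℕ) : n ≤ pentagonal (-(n : ℤ)) := by
  induction n with
  | zero => exact Nat.zero_le _
  | succ n ih => rw [pent_step]; omega

theorem p0_dvd (n : ℕ) : (X : ℤ⟦X⟧) ^ n ∣ p0 n := by
  unfold p0
  exact (pow_dvd_pow _ (pent_ge n)).mul_right _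

theorem La_iter (n : ℕ) : La 0 = (∑ j ∈ range n, p0 j) + X ^ (pentagonal (-(n : ℤ))) * La n := by
  induction n with
  | zero =>
    have : pentagonal (-((0 : ℕ) : ℤ)) = 0 := by decide
    rw [this]; simp
  | succ n ih =>
    rw [sum_range_succ, pent_step, pow_add]
    rw [ih, La_rec n]
    unfold p0
    ring

theorem hasSum_La0 : HasSum p0 (La 0) := by
  refine hasSum_of_dvd p0_dvd fun n => ?_
  have e : (∑ j ∈ range n, p0 j) - La 0 = X ^ (pentagonal (-(n : ℤ))) * (-La n) := by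
    rw [La_iter n]; ring
  rw [e]
  exact (pow_dvd_pow _ (pent_ge n)).mul_right _

theorem dL_M (k : ℕ) : dL 0 k = M (X : ℤ⟦X⟧) k := by
  unfold dL M
  refine prod_congr rfl fun j _ => ?_
  congr 2
  ring

theorem two_choose (k : ℕ) : 2 * (k + 1).choose 2 = (k + 1) * k := by
  have := Nat.choose_two_right (k + 1)
  rw [this, Nat.add_sub_cancel]
  exact Nat.mul_div_cancel' (by rw [mul_comm]; exact (Nat.even_mul_succ_self k).two_dvd)

theorem hL_M (k : ℕ) : M (X : ℤ⟦X⟧) k * hL 0 k = (-1) ^ k * X ^ ((k + 1).choose 2) := by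
  unfold hL
  rw [dL_M]
  have h := mul_iv (cc_M k)
  have e : (X : ℤ⟦X⟧) ^ ((k + 1).choose 2) = X ^ (k.choose 2) * X ^ k := by
    rw [← pow_add]; congr 1
    rw [Nat.choose_succ_succ' k 1, Nat.choose_one_right]; ring
  rw [e, mul_zero, zero_add, pow_one, neg_pow]
  linear_combination ((-1) ^ k * X ^ k * X ^ (k.choose 2)) * h

theorem Ps_iter (n : ℕ) : M (X : ℤ⟦X⟧) (2 * n) * (Ps 0 - ∑ k ∈ range (2 * n), hL 0 k) =
    X ^ (n * (2 * n + 1)) * Ps n := by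
  induction n with
  | zero => simp [M]
  | succ n ih =>
    rw [show 2 * (n + 1) = 2 * n + 1 + 1 by ring, sum_range_succ, sum_range_succ]
    have h1 := hL_M (2 * n)
    have h2 := hL_M (2 * n + 1)
    have m1 := M_succ (X : ℤ⟦X⟧) (2 * n)
    have m2 := M_succ (X : ℤ⟦X⟧) (2 * n + 1)
    have h3 := Ps_rec n
    have s1 : (-1 : ℤ⟦X⟧) ^ (2 * n) = 1 := by rw [pow_mul]; simp
    have s2 : (-1 : ℤ⟦X⟧) ^ (2 * n + 1) = -1 := by rw [pow_succ, s1]; ring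
    have t1 : (2 * n + 1).choose 2 = n * (2 * n + 1) := by
      have := two_choose (2 * n)
      nlinarith
    have t2 : (2 * n + 1 + 1).choose 2 = n * (2 * n + 1) + (2 * n + 1) := by
      have := two_choose (2 * n + 1)
      nlinarith
    rw [s1, t1, one_mul] at h1
    rw [s2, t2, pow_add] at h2
    have e : (X : ℤ⟦X⟧) ^ ((n + 1) * (2 * n + 1 + 1 + 1)) =
        X ^ (n * (2 * n + 1)) * X ^ (4 * n + 3) := by
      rw [← pow_add]; congr 1; ring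
    rw [e]
    rw [m2] at *
    rw [m1] at h2 ⊢
    linear_combination (1 + X ^ (2 * n + 1)) * (1 + X ^ (2 * n + 1 + 1)) * ih -
      (1 + X ^ (2 * n + 1)) * (1 + X ^ (2 * n + 1 + 1)) * h1 - (1 + X ^ (2 * n + 1 + 1)) * h2 +
      X ^ (n * (2 * n + 1)) * h3

theorem Ps_La : Ps 0 = La 0 := by
  have h1 : Tendsto (fun n => ∑ k ∈ range (2 * n), hL 0 k) atTop (𝓝 (La 0)) :=
    (hasSum_La 0).tendsto_sum_nat.comp
      (tendsto_atTop_mono (fun n => by simp only [id]; omega) tendsto_id)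
  have h2 : Tendsto (fun n => ∑ k ∈ range (2 * n), hL 0 k) atTop (𝓝 (Ps 0)) := by
    refine tendsto_of_dvd' fun n => ?_
    have h3 : Ps 0 - ∑ k ∈ range (2 * n), hL 0 k =
        iv (M (X : ℤ⟦X⟧) (2 * n)) * (X ^ (n * (2 * n + 1)) * Ps n) := by
      rw [← Ps_iter n]
      have := mul_iv (cc_M (2 * n))
      linear_combination (-(Ps 0 - ∑ k ∈ range (2 * n), hL 0 k)) * this
    have e : (∑ k ∈ range (2 * n), hL 0 k) - Ps 0 =
        X ^ (n * (2 * n + 1)) * (-(iv (M (X : ℤ⟦X⟧) (2 * n)) * Ps n)) := by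
      linear_combination -h3
    rw [e]
    exact (pow_dvd_pow _ (by nlinarith)).mul_right _
  exact tendsto_nhds_unique h2 h1

/-- the main identity: `2 q T_o + ∑ q^{n(2n+1)} (1 - q^{2n+1}) =
(-q;q)^2 ∑ q^{n(3n+1)/2} (1 - q^{2n+1})` -/
theorem main : 2 * X * TT 0 + Ph 0 = La 0 * Mi ^ 2 := by
  have h := three_term
  unfold EE at h
  rw [KK_zero, KI_eq, Ps_La, mul_zero, zero_add, pow_one] at h
  exact h

end Pool.Agent.Q107.TO
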